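import Mathlib
import Pool.Agent.R361.MH.Free

/-!
# MP_7eb7a8_an, Q1: a free locally convex space that is multi-Hilbert is nuclear

The definitions (`IsHilbertian`, `MultiHilbert`, `IsNuclearOp`, `NuclearLCS`, `IsFreeLCS`, the normed space `NSp p`
associated with a seminorm `p` and its completion `BSp p`) are in `Pool.Agent.R361.MH.Defs`.
-/

set_option autoImplicit false

namespace Pool.Agent.Results.MP_7eb7a8_an.MultiHilbertNuclear

open Pool.Agent.R361.MH

universe u

/-- Let `X` be a Tychonoff space. (1) The free locally convex space `L(X)` exists, on the vector space with Hamel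
basis `X`. (2) For every free locally convex space `(E, δ)` of `X`: if `E` is multi-Hilbert then `E` is nuclear. -/
theorem result : ∀ (X : Type u) [TopologicalSpace X] [T35Space X],
    (∃ t : TopologicalSpace (X →₀ ℝ), @IsFreeLCS X _ (X →₀ ℝ) _ _ t (fun x => Finsupp.single x 1)) ∧
    ∀ (E : Type u) [AddCommGroup E] [Module ℝ E] [TopologicalSpace E] (δ : X → E),
      IsFreeLCS X E δ → MultiHilbert E → NuclearLCS E :=
  fun X _ _ => ⟨exists_free X, fun _ _ _ _ δ hfree hE => main δ hfree hE⟩

end Pool.Agent.Results.MP_7eb7a8_an.MultiHilbertNuclear
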